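import Pool.Agent.W275.UB.Stm

/-!
Homogeneity, the formulas of Euler and Taylor for systems of forms (subtask UB-EUL).
-/

set_option autoImplicit false

namespace Pool.Agent.W32.UB

open MvPolynomial Pool.Agent.H936R2 Pool.Agent.W275.UB

theorem eval_smul_hom' {R : Type} [CommRing R] {n d : ℕ} {P : MvPolynomial (Fin n) R}
    (hP : P.IsHomogeneous d) (c : R) (x : Fin n → R) :
    eval (c • x) P = c ^ d * eval x P := by
  rw [eval_eq, eval_eq, Finset.mul_sum]
  apply Finset.sum_congr rfl
  intro κ hκ
  have hdeg : κ.degree = d := by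
    have := hP (mem_support_iff.1 hκ)
    rw [Finsupp.degree_eq_weight_one]; exact this
  have h3 : ∏ j ∈ κ.support, ((c • x) j) ^ κ j =
      c ^ d * ∏ j ∈ κ.support, (x j) ^ κ j := by
    simp only [Pi.smul_apply, smul_eq_mul, mul_pow]
    rw [Finset.prod_mul_distrib, Finset.prod_pow_eq_pow_sum, ← hdeg]
    rfl
  rw [h3]
  ring

theorem pderiv_smul {R : Type} [CommRing R] {n d : ℕ} {P : MvPolynomial (Fin n) R}
    (hP : P.IsHomogeneous d) (c : R) (x : Fin n → R) (j : Fin n) :
    c * eval (c • x) (pderiv j P) = c ^ d * eval x (pderiv j P) := by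
  rcases Nat.eq_zero_or_pos d with h | h
  · subst h
    have h1 : pderiv j P = 0 := by
      have h2 : P = C (coeff 0 P) := by
        apply totalDegree_eq_zero_iff_eq_C.1
        have := hP.totalDegree_le
        omega
      rw [h2, pderiv_C]
    rw [h1]
    simp
  · rw [eval_smul_hom' hP.pderiv, ← mul_assoc, ← pow_succ', Nat.sub_add_cancel h]

theorem main : S_eul := by
  intro R _ n d P hP
  refine ⟨?_, ?_, ?_, ?_⟩
  · intro c x
    funext i
    exact eval_smul_hom' (hP i) c x
  · intro c x
    ext i j
    exact pderiv_smul (hP i) c x j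
  · intro x
    funext i
    have h1 := congrArg (eval x) (hP i).sum_X_mul_pderiv
    rw [map_sum] at h1
    simp only [Matrix.mulVec, dotProduct, jac, Pi.smul_apply, pt, smul_eq_mul]
    rw [map_nsmul, nsmul_eq_mul] at h1
    rw [← h1]
    apply Finset.sum_congr rfl
    intro j _
    rw [map_mul, eval_X, mul_comm]
  · intro t x u
    have h1 := fun i => taylor_one (S := R) t x u (P i)
    choose w hw using h1
    refine ⟨w, ?_⟩
    funext i
    have h2 := hw i
    simp only [Algebra.algebraMap_self, RingHom.id_apply] at h2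
    simp only [pt, Pi.add_apply, Pi.smul_apply, smul_eq_mul, Matrix.mulVec, dotProduct, jac]
    rw [← h2]
    rfl

end Pool.Agent.W32.UB
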